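import Mathlib

/-! Algebraic core: a shift-consistent word function with finite Hankel rank, the
finite-dependence identity and vanishing on words with two equal consecutive letters
does not exist. -/

namespace Pool.Agent.H573.FDMRF

open Module

/-- A vector space with a decreasing sequence of kernels with trivial intersection, all
ranges being spanned by boundedly many vectors, is finite dimensional. -/
theorem finite_of_kernels {V : Type*} [AddCommGroup V] [Module ℝ V] {W : ℕ → Type*}
    [∀ j, AddCommGroup (W j)] [∀ j, Module ℝ (W j)] (ι : Type*) [Fintype ι]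
    (ρ : ∀ j : ℕ, V →ₗ[ℝ] W j)
    (hanti : ∀ i j : ℕ, i ≤ j → LinearMap.ker (ρ j) ≤ LinearMap.ker (ρ i))
    (hinter : ∀ x : V, (∀ j, ρ j x = 0) → x = 0)
    (hrange : ∀ j, ∃ g : ι → W j, ∀ x, ρ j x ∈ Submodule.span ℝ (Set.range g)) :
    FiniteDimensional ℝ V := by
  classical
  have key : ∀ s : Finset V, (LinearIndependent ℝ fun i : s => (i : V)) → s.card ≤ Fintype.card ι := by
    intro s hs
    set U : Submodule ℝ V := Submodule.span ℝ (s : Set V) with hW
    have hUf : FiniteDimensional ℝ U := FiniteDimensional.span_finset ℝ s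
    have hfr : finrank ℝ U = s.card := finrank_span_finset_eq_card hs
    have hmono : Monotone (fun j : ℕ => OrderDual.toDual
        (LinearMap.ker ((ρ j).comp U.subtype))) := by
      intro i j hij
      refine OrderDual.toDual_le_toDual.2 ?_
      intro x hx
      exact hanti i j hij hx
    obtain ⟨j, hj⟩ := IsArtinian.monotone_stabilizes (R := ℝ) (M := U)
      ⟨fun j : ℕ => OrderDual.toDual (LinearMap.ker ((ρ j).comp U.subtype)), hmono⟩
    have hj' : ∀ m, j ≤ m → LinearMap.ker ((ρ j).comp U.subtype)
        = LinearMap.ker ((ρ m).comp U.subtype) := by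
      intro m hm
      exact congrArg OrderDual.ofDual (hj m hm)
    have hker : LinearMap.ker ((ρ j).comp U.subtype) = ⊥ := by
      rw [eq_bot_iff]
      intro x hx
      rw [Submodule.mem_bot]
      have h2 : ∀ m, ρ m x.1 = 0 := by
        intro m
        rcases le_total j m with hm | hm
        · have h3 : x ∈ LinearMap.ker ((ρ m).comp U.subtype) := by
            rw [← hj' m hm]; exact hx
          exact h3
        · exact hanti m j hm hx
      exact Subtype.ext (hinter x.1 h2)
    obtain ⟨g, hg⟩ := hrange j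
    have hr : LinearMap.range ((ρ j).comp U.subtype) ≤ Submodule.span ℝ (Set.range g) := by
      rintro _ ⟨x, rfl⟩
      exact hg x.1
    have h7 : finrank ℝ (LinearMap.range ((ρ j).comp U.subtype)) = finrank ℝ U :=
      LinearMap.finrank_range_of_inj (LinearMap.ker_eq_bot.1 hker)
    have hfd : FiniteDimensional ℝ (Submodule.span ℝ (Set.range g)) :=
      FiniteDimensional.span_of_finite ℝ (Set.finite_range _)
    have h8 : finrank ℝ (LinearMap.range ((ρ j).comp U.subtype)) ≤ Fintype.card ι := by
      refine (Submodule.finrank_mono hr).trans ?_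
      exact finrank_range_le_card g
    omega
  have h := rank_le key
  exact Module.rank_lt_aleph0_iff.1 (h.trans_lt (Cardinal.natCast_lt_aleph0))

variable {α : Type*}

/-- The row of the Hankel matrix. -/
def row (p : List α → ℝ) (u : List α) : List α → ℝ := fun v => p (u ++ v)

/-- The span of the rows. -/
def rsp (p : List α → ℝ) : Submodule ℝ (List α → ℝ) :=
  Submodule.span ℝ (Set.range (row p))

/-- Shift by one letter. -/
def sh (a : α) : (List α → ℝ) →ₗ[ℝ] (List α → ℝ) :=
  LinearMap.funLeft ℝ ℝ (List.cons a)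

theorem sh_apply (a : α) (f : List α → ℝ) (v : List α) : sh a f v = f (a :: v) := rfl

theorem sh_row (p : List α → ℝ) (a : α) (u : List α) :
    sh a (row p u) = row p (u ++ [a]) := by
  funext v
  simp [sh_apply, row]

theorem sh_mem (p : List α → ℝ) (a : α) : ∀ x ∈ rsp p, sh a x ∈ rsp p := by
  intro x hx
  have : rsp p ≤ (rsp p).comap (sh a) := by
    refine Submodule.span_le.2 ?_
    rintro _ ⟨u, rfl⟩
    change sh a (row p u) ∈ rsp p
    rw [sh_row]
    exact Submodule.subset_span ⟨_, rfl⟩
  exact this hx

theorem row_mem (p : List α → ℝ) (u : List α) : row p u ∈ rsp p :=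
  Submodule.subset_span ⟨u, rfl⟩

/-- Restriction of functions on words to words of length at most `j`. -/
def rs (α : Type*) (j : ℕ) : (List α → ℝ) →ₗ[ℝ] ({v : List α // v.length ≤ j} → ℝ) :=
  LinearMap.funLeft ℝ ℝ Subtype.val

theorem rs_apply (j : ℕ) (f : List α → ℝ) (v : {v : List α // v.length ≤ j}) :
    rs α j f v = f v.1 := rfl

/-- Finite Hankel rank gives finite dimension of the span of rows. -/
theorem rsp_finite (p : List α → ℝ) (ι : Type*) [Fintype ι]
    (hfac : ∀ j : ℕ, ∃ (L : List α → ι → ℝ) (R : ι → List α → ℝ),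
      ∀ u v, v.length ≤ j → p (u ++ v) = ∑ s, L u s * R s v) :
    FiniteDimensional ℝ (rsp p) := by
  refine finite_of_kernels (V := rsp p) (W := fun j => {v : List α // v.length ≤ j} → ℝ) ι
    (fun j => (rs α j).comp (rsp p).subtype) ?_ ?_ ?_
  · intro i j hij x hx
    rw [LinearMap.mem_ker] at hx ⊢
    funext v
    have h1 := congrFun hx ⟨v.1, v.2.trans hij⟩
    exact h1
  · intro x hx
    apply Subtype.ext
    funext v
    exact congrFun (hx v.length) ⟨v, le_rfl⟩
  · intro j
    obtain ⟨L, R, hLR⟩ := hfac j
    refine ⟨fun s => rs α j (R s), ?_⟩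
    intro x
    have h5 : rsp p ≤ (Submodule.span ℝ (Set.range (fun s : ι => rs α j (R s)))).comap
        (rs α j) := by
      refine Submodule.span_le.2 ?_
      rintro _ ⟨u, rfl⟩
      change rs α j (row p u) ∈ Submodule.span ℝ (Set.range (fun s : ι => rs α j (R s)))
      have h6 : rs α j (row p u) = ∑ s, L u s • rs α j (R s) := by
        funext v
        rw [rs_apply, row, hLR u v.1 v.2, Finset.sum_apply]
        rfl
      rw [h6]
      exact Submodule.sum_mem _ (fun s _ => Submodule.smul_mem _ _
        (Submodule.subset_span ⟨s, rfl⟩))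
    exact h5 x.2

/-- The restriction of the shift by one letter to the span of rows. -/
noncomputable def Ta (p : List α → ℝ) (a : α) : rsp p →ₗ[ℝ] rsp p := (sh a).restrict (sh_mem p a)

theorem Ta_val (p : List α → ℝ) (a : α) (x : rsp p) (v : List α) :
    (Ta p a x).1 v = x.1 (a :: v) := rfl

/-- Induction principle: two linear maps into functions agreeing on rows agree. -/
theorem rsp_ext (p : List α → ℝ) {M : Type*} [AddCommGroup M] [Module ℝ M]
    (f g : rsp p →ₗ[ℝ] M) (h : ∀ u, f ⟨row p u, row_mem p u⟩ = g ⟨row p u, row_mem p u⟩) :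
    f = g := by
  apply LinearMap.ext
  rintro ⟨x, hx⟩
  have hx' := hx
  unfold rsp at hx'
  induction hx' using Submodule.span_induction with
  | mem y hy => obtain ⟨u, rfl⟩ := hy; exact h u
  | zero =>
    have : (⟨0, hx⟩ : rsp p) = 0 := rfl
    rw [this, map_zero, map_zero]
  | add y z hy hz ihy ihz =>
    have : (⟨y + z, hx⟩ : rsp p) = ⟨y, hy⟩ + ⟨z, hz⟩ := rfl
    rw [this, map_add, map_add, ihy hy, ihz hz]
  | smul c y hy ihy =>
    have : (⟨c • y, hx⟩ : rsp p) = c • ⟨y, hy⟩ := rfl
    rw [this, map_smul, map_smul, ihy hy]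

/-- The rank one map. -/
noncomputable def Emap (p : List α → ℝ) : rsp p →ₗ[ℝ] rsp p :=
  ((LinearMap.proj (R := ℝ) (φ := fun _ : List α => ℝ) ([] : List α)).comp
    (rsp p).subtype).smulRight ⟨row p [], row_mem p []⟩

theorem Emap_val (p : List α → ℝ) (x : rsp p) (v : List α) :
    (Emap p x).1 v = x.1 [] * p v := rfl

theorem trace_eq_of_pow {V : Type*} [AddCommGroup V] [Module ℝ V] [FiniteDimensional ℝ V]
    (T E : Module.End ℝ V) (k : ℕ) (hTE : T * E = E) (hET : E * T = E) (hEE : E * E = E)
    (hTk : T ^ k = E) : LinearMap.trace ℝ V T = LinearMap.trace ℝ V E := by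
  have hETm : ∀ m : ℕ, E * T ^ (m + 1) = E := by
    intro m
    induction m with
    | zero => simpa using hET
    | succ m ih2 => rw [pow_succ, ← mul_assoc, ih2, hET]
  have hTm : ∀ m : ℕ, (T - E) ^ (m + 1) = T ^ (m + 1) - E := by
    intro m
    induction m with
    | zero => simp
    | succ m ih =>
      rw [pow_succ' (T - E), ih, sub_mul, mul_sub, mul_sub, hTE, hETm, hEE, ← pow_succ']
      abel
  have hnil : IsNilpotent (T - E) := by
    refine ⟨k + 1, ?_⟩
    rw [hTm k, pow_succ', hTk, hTE, sub_self]
  have h1 := (LinearMap.isNilpotent_trace_of_isNilpotent hnil).eq_zero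
  rw [map_sub] at h1
  linarith

theorem alg_contradiction [Fintype α] (p : List α → ℝ) (ι : Type*) [Fintype ι]
    (h0 : p [] = 1)
    (hl : ∀ v, ∑ a, p (a :: v) = p v)
    (hr : ∀ u, ∑ a, p (u ++ [a]) = p u)
    (haa : ∀ u a v, p (u ++ a :: a :: v) = 0)
    (k : ℕ) (F : ℕ → List α → List α → ℝ)
    (hF0 : ∀ u v, F 0 u v = p (u ++ v))
    (hFs : ∀ n u v, F (n + 1) u v = ∑ a, F n u (a :: v))
    (hFk : ∀ u v, F k u v = p u * p v)
    (hfac : ∀ j : ℕ, ∃ (L : List α → ι → ℝ) (R : ι → List α → ℝ),
      ∀ u v, v.length ≤ j → p (u ++ v) = ∑ s, L u s * R s v) : False := by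
  classical
  have hfin : FiniteDimensional ℝ (rsp p) := rsp_finite p ι hfac
  set T : rsp p →ₗ[ℝ] rsp p := ∑ a, Ta p a with hT
  set E : rsp p →ₗ[ℝ] rsp p := Emap p with hE
  have hTv : ∀ (x : rsp p) (v : List α), (T x).1 v = ∑ a, x.1 (a :: v) := by
    intro x v
    rw [hT, LinearMap.sum_apply]
    rw [show ((∑ a, (Ta p a) x : rsp p) : List α → ℝ) = ∑ a, ((Ta p a x : rsp p) : List α → ℝ)
      from map_sum (rsp p).subtype _ _]
    rw [Finset.sum_apply]
    rfl
  -- traces of the single shifts vanish
  have htr : LinearMap.trace ℝ (rsp p) T = 0 := by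
    rw [hT, map_sum]
    refine Finset.sum_eq_zero (fun a _ => ?_)
    have hnil : IsNilpotent (Ta p a) := by
      refine ⟨2, ?_⟩
      apply rsp_ext p
      intro u
      apply Subtype.ext
      funext v
      rw [pow_two]
      change p (u ++ a :: a :: v) = 0
      exact haa u a v
    exact (LinearMap.isNilpotent_trace_of_isNilpotent hnil).eq_zero
  have htrE : LinearMap.trace ℝ (rsp p) E = 1 := by
    rw [hE, Emap, LinearMap.trace_smulRight]
    change p ([] ++ []) = 1
    exact h0
  have hTE : T * E = E := by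
    apply LinearMap.ext
    intro x
    apply Subtype.ext
    funext v
    change (T (E x)).1 v = (E x).1 v
    rw [hTv, Emap_val]
    have : ∀ a, (E x).1 (a :: v) = x.1 [] * p (a :: v) := fun a => rfl
    simp_rw [this]
    rw [← Finset.mul_sum, hl]
  have hET : E * T = E := by
    apply rsp_ext p
    intro u
    apply Subtype.ext
    funext v
    change (E (T _)).1 v = (E _).1 v
    rw [Emap_val, Emap_val, hTv]
    congr 1
    change ∑ a, p (u ++ [a]) = p (u ++ [])
    rw [hr, List.append_nil]
  have hEE : E * E = E := by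
    apply LinearMap.ext
    intro x
    apply Subtype.ext
    funext v
    change (E (E x)).1 v = (E x).1 v
    rw [Emap_val, Emap_val, Emap_val, h0, mul_one]
  have hTn : ∀ (n : ℕ) (u v : List α), ((T ^ n) ⟨row p u, row_mem p u⟩).1 v = F n u v := by
    intro n
    induction n with
    | zero =>
      intro u v
      rw [pow_zero, hF0]
      rfl
    | succ n ih =>
      intro u v
      rw [pow_succ', hFs]
      change (T ((T ^ n) _)).1 v = _
      rw [hTv]
      exact Finset.sum_congr rfl (fun a _ => ih u (a :: v))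
  have hTk : T ^ k = E := by
    apply rsp_ext p
    intro u
    apply Subtype.ext
    funext v
    rw [hTn, hFk, Emap_val]
    change _ = p (u ++ []) * p v
    rw [List.append_nil]
  have h1 := trace_eq_of_pow T E k hTE hET hEE hTk
  rw [htr, htrE] at h1
  norm_num at h1

end Pool.Agent.H573.FDMRF
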